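import Mathlib
import Pool.Agent.Helper79_TOR.Stmts
import Pool.Agent.Helper76_TOR.ExF

/-! T2STAB module HDS: the head is the first near syllable (adapter to helper76's hdF). -/

set_option autoImplicit false

namespace Pool.Agent.TST.H40

open Pool.Agent.TST Pool.Agent.TOR.H76

theorem pre_eq {α J : Type*} : ∀ L : List ((α ⊕ J) × Bool),
    ((L.takeWhile fun p => p.1.isLeft).filterMap
      fun p => p.1.getLeft?.map fun i => (i, p.2)) = pre L
  | [] => rfl
  | (Sum.inl a, b) :: L => by
    have h := pre_eq L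
    show _ = (a, b) :: pre L
    rw [← h]
    rfl
  | (Sum.inr j, b) :: L => rfl

theorem hd_eq {ι δ : Type} [DecidableEq ι] [DecidableEq δ] (g : FreeGroup (ι ⊕ δ)) :
    hd g = hdF g := by
  unfold hd hdF
  rw [pre_eq]
  refine congrArg (fun D : DecidableEq (ι ⊕ δ) =>
    FreeGroup.mk (pre (@FreeGroup.toWord (ι ⊕ δ) D g))) ?_
  exact Subsingleton.elim _ _

theorem hds : HDS := by
  intro ι δ
  classical
  exact
  { old := fun x => by
      have h := hdF_i_mul (J := δ) x 1
      rw [mul_one, hdF_one, mul_one] at h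
      rw [hd_eq]; exact h
    left := fun x g => by rw [hd_eq, hd_eq]; exact hdF_i_mul x g
    new := fun g d => by rw [hd_eq, hd_eq]; exact hdF_mul_t g d
    right := fun g x hg => by rw [hd_eq, hd_eq]; exact hdF_mul_i g hg x
    dich := fun g hg u => by
      rw [hd_eq, hd_eq, hd_eq, hd_eq]; exact hdF_alt g hg u }

end Pool.Agent.TST.H40
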