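import Pool.Agent.Helper20_TWS.Stmts
import Pool.Agent.Helper59_TOR.Std

/-! TWS module ROT: rotation of the gaps. -/

set_option autoImplicit false

namespace Pool.Agent.TWS.H40

open Pool.Agent.TOR Pool.Agent.TWS Pool.Agent.TOR.H59

variable {α : Type} [DecidableEq α]

theorem co_rot (R : Rib α) {Z : List (α × Bool)} (hZ : Bd R 0 Z) (hz : FreeGroup.mk Z ≠ 1)
    (x y z : FreeGroup α) :
    co R (x, 0) (y, 1) (z, 0) ↔ co R (x, 1) (y * (FreeGroup.mk Z)⁻¹, 0) (z, 1) := by
  have hno : ∀ h, ¬ cy R (y * (FreeGroup.mk Z)⁻¹) h y := by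
    intro h
    have := no_between R hZ (y * (FreeGroup.mk Z)⁻¹) h
    rwa [inv_mul_cancel_right] at this
  have hne : y * (FreeGroup.mk Z)⁻¹ ≠ y := by
    intro h
    apply hz
    rwa [mul_eq_left, inv_eq_one] at h
  generalize y * (FreeGroup.mk Z)⁻¹ = y' at hno hne ⊢
  rw [co_iff, co_iff]
  have h1 := hno x
  have h2 := hno z
  have k1 : key R x = key R y → x = y := key_inj R
  have k2 : key R x = key R z → x = z := key_inj R
  have k3 : key R y = key R z → y = z := key_inj R
  have k4 : key R x = key R y' → x = y' := key_inj R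
  have k5 : key R y' = key R z → y' = z := key_inj R
  have k6 : key R y' = key R y → y' = y := key_inj R
  simp only [lt_irrefl, and_false, or_false, zero_lt_one, and_true, false_or,
    not_lt_zero]
  unfold cy Cyc at *
  grind

theorem lo_rot (R : Rib α) {Z : List (α × Bool)} (hZ : Bd R 0 Z) (hz : FreeGroup.mk Z ≠ 1)
    (x y u v : FreeGroup α) :
    Lo R (x, 0) (y, 0) (u, 1) (v, 1) ↔
      Lo R (x, 1) (y, 1) (u * (FreeGroup.mk Z)⁻¹, 0) (v * (FreeGroup.mk Z)⁻¹, 0) := by
  rw [lo_def, lo_def, co_rot R hZ hz x u y, co_rot R hZ hz y v x, co_rot R hZ hz x v y,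
    co_rot R hZ hz y u x]

theorem rot : RotS := by
  intro n hn k m
  have hz := zeta_ne_one hn
  have hZ := bd_std n
  unfold Cmp
  constructor
  · intro h g hg
    apply h (g * zeta n)
    rw [lo_rot (sR n) hZ hz, mk_sZ]
    rw [mul_inv_cancel_right]
    have e : g * zeta n * m * (zeta n)⁻¹ = g * (zeta n * m * (zeta n)⁻¹) := by
      simp only [mul_assoc]
    rw [e]
    exact hg
  · intro h g hg
    apply h (g * (zeta n)⁻¹)
    rw [lo_rot (sR n) hZ hz, mk_sZ] at hg
    have e : g * (zeta n)⁻¹ * (zeta n * m * (zeta n)⁻¹) = g * m * (zeta n)⁻¹ := by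
      simp only [mul_assoc, inv_mul_cancel_left]
    rw [e]
    exact hg

end Pool.Agent.TWS.H40
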